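import Pool.Agent.Q4.Omega.Main

/-!
# The involution `ω` on symmetric functions over `𝔽₂` is `n`-transverse for every `n`

`Q4.Omega.R = 𝔽₂[e_1, e_2, …]` (polynomial ring, the variable `X i` is `e_{i+1}`), `Q4.Omega.h` are
the complete homogeneous symmetric functions (`h_0 = 1`, `∑ e_i h_{k-i} = 0` for `k ≥ 1`),
`Q4.Omega.ω` is the ring endomorphism with `ω(e_k) = h_k` (an involution: `Q4.Omega.omega_omega`),
`Q4.Omega.S` is the subring of the invariants and `Q4.Omega.I` is the ideal `{x + ω(x)}` of `S`.
The ideal `RI^n` of `R` generated by `I^n` is `(I ^ n).map S.subtype`, and its intersection with `S`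
is its preimage under the inclusion `S → R`.
-/

namespace Pool.Agent.Results.MP_628479_al.AllTransverse

open Q4.Omega in
/-- `R I^n ∩ S = I^n` for every `n` (in particular for all `n ≥ 3`). -/
theorem result : ∀ n : ℕ, ((I ^ n).map S.subtype).comap S.subtype = I ^ n :=
  Q4.Omega.transverse

end Pool.Agent.Results.MP_628479_al.AllTransverse
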